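import Pool.Agent.N826.IT.B
import Pool.Agent.N733.TG.H

set_option autoImplicit false

/-!
Almost all orbits of Euler's function keep away from sets with a power saving (helper760), part A: the number of rough `r` with
a nice chain `φ r`, `φ (φ r)`, … and a last value in a set `W`. This is part B of helper826 (`Pool/Agent/N826/IT/B.lean`) with the
estimate `Vk` of helper733 for sets with a power saving instead of the classes modulo `q`.
-/

namespace Pool.Agent.N760.IT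

open Finset Classical
open Pool.Agent.N733.TG Pool.Agent.N826.IT

/-- `W` has at most `C₀ X ^ θ` elements up to `X` -/
def Few (C₀ θ : ℝ) (W : Set ℕ) : Prop :=
  ∀ X : ℕ, 1 ≤ X → (((Icc 1 X).filter (fun v => v ∈ W)).card : ℝ) ≤ C₀ * (X : ℝ) ^ θ

lemma log_small (M : ℕ) (c δ : ℝ) (hδ : 0 < δ) : ∃ N₀ : ℕ, ∀ N : ℕ, N₀ ≤ N → c * Real.log N ^ M ≤ (N : ℝ) ^ δ := by
  have h1 := (isLittleO_log_rpow_rpow_atTop (M : ℝ) hδ).def (show (0 : ℝ) < 1 / (|c| + 1) by positivity)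
  obtain ⟨x0, hx0⟩ := Filter.eventually_atTop.1 (h1.and (Filter.eventually_ge_atTop (1 : ℝ)))
  refine ⟨⌈x0⌉₊, fun N hN => ?_⟩
  obtain ⟨h2, h3⟩ := hx0 N ((Nat.le_ceil x0).trans (by exact_mod_cast hN))
  have hl := Real.log_nonneg h3
  rw [Real.norm_of_nonneg (by positivity), Real.norm_of_nonneg (by positivity), Real.rpow_natCast] at h2
  have h4 : c ≤ |c| + 1 := by linarith [le_abs_self c]
  calc c * Real.log N ^ M ≤ (|c| + 1) * Real.log N ^ M := mul_le_mul_of_nonneg_right h4 (by positivity)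
    _ ≤ (|c| + 1) * (1 / (|c| + 1) * (N : ℝ) ^ δ) := mul_le_mul_of_nonneg_left h2 (by positivity)
    _ = _ := by field_simp

theorem UkW {f : ℕ → ℕ} (hf : LM f) {θ : ℝ} (hθ0 : 0 ≤ θ) (C₀ : ℝ) {H : ℕ} (hH1 : 1 ≤ H)
    (hH : (1 + 1 / (H : ℝ)) * θ < 1) (J T : ℕ) : ∃ N₀ : ℕ, ∀ N : ℕ, N₀ ≤ N → ∀ W : Set ℕ, Few C₀ θ W →
      ∀ z k y : ℕ, N < (z + 1) ^ (J + 1) → 1 ≤ k → y ≤ N → (f k) ^ H ≤ y → N ≤ y ^ 2 →
      ((UW f W y z k).card : ℝ) ≤ y / Real.log N ^ T := by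
  obtain ⟨P, M₀, hPM⟩ := hf.prime
  obtain ⟨M, hM⟩ : ∃ M : ℕ, M = M₀ + 1 := ⟨_, rfl⟩
  have hM1 : 1 ≤ M := by omega
  have hP : ∀ p : ℕ, P ≤ p → p.Prime → f p ≤ M * p ∧ ∀ q : ℕ, P ≤ q → q.Prime → f q = f p → q = p := by
    intro p h1 h2
    obtain ⟨h3, h4⟩ := hPM p h1 h2
    refine ⟨h3.trans (Nat.mul_le_mul_right _ (by omega)), h4⟩
  obtain ⟨B, hB⟩ : ∃ B, B = 2 ^ (J * 2) := ⟨_, rfl⟩
  obtain ⟨c1, hc1⟩ : ∃ c1 : ℝ, c1 = (M : ℝ) ^ J := ⟨_, rfl⟩
  have hc11 : 1 ≤ c1 := by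
    rw [hc1]
    exact one_le_pow₀ (by exact_mod_cast hM1)
  obtain ⟨C, hC⟩ : ∃ C : ℝ, C = |C₀| + 1 := ⟨_, rfl⟩
  have hC1 : 1 ≤ C := by rw [hC]; linarith [abs_nonneg C₀]
  have hCC : C₀ ≤ C := by rw [hC]; linarith [le_abs_self C₀]
  obtain ⟨δ, hδ⟩ : ∃ δ : ℝ, δ = (1 - (1 + 1 / (H : ℝ)) * θ) / 2 := ⟨_, rfl⟩
  have hδ0 : 0 < δ := by rw [hδ]; linarith
  obtain ⟨n1, hn1⟩ := log_small (B + 2 * T) (C * c1 * 4 ^ J * c1 * 2 ^ B) δ hδ0
  have hlog := (Real.tendsto_log_atTop.comp (tendsto_natCast_atTop_atTop (R := ℝ))).eventually_ge_atTop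
    (1 + Real.log c1)
  rw [Filter.eventually_atTop] at hlog
  obtain ⟨n2, hn2⟩ := hlog
  refine ⟨max n1 (max n2 (max ((P + 1) ^ (J + 1)) 3)), fun N hN W hW z k y hz hk hyN hq hy => ?_⟩
  have b1 : n1 ≤ N := le_trans (le_max_left _ _) hN
  have b2 : n2 ≤ N := le_trans (le_trans (le_max_left _ _) (le_max_right _ _)) hN
  have b3 : (P + 1) ^ (J + 1) ≤ N :=
    le_trans (le_trans (le_trans (le_max_left _ _) (le_max_right _ _)) (le_max_right _ _)) hN
  have b5 : 3 ≤ N := le_trans (le_trans (le_trans (le_max_right _ _) (le_max_right _ _)) (le_max_right _ _)) hN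
  have hzP : P ≤ z := by
    by_contra h
    push Not at h
    have : (z + 1) ^ (J + 1) ≤ (P + 1) ^ (J + 1) := Nat.pow_le_pow_left (by omega) _
    omega
  have hy1 : 1 ≤ y := by
    rcases Nat.eq_zero_or_pos y with h | h
    · rw [h] at hy
      omega
    · exact h
  have hyr : (1 : ℝ) ≤ y := by exact_mod_cast hy1
  have hy0 : (0 : ℝ) < y := by linarith
  have hNr : (3 : ℝ) ≤ N := by exact_mod_cast b5
  have hfk : 1 ≤ f k := hf.pos k hk
  have hfk' : (1 : ℝ) ≤ f k := by exact_mod_cast hfk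
  obtain ⟨L, hL⟩ : ∃ L, L = Real.log N := ⟨_, rfl⟩
  have hLc : 1 + Real.log c1 ≤ L := by rw [hL]; exact hn2 N b2
  have hlc : 0 ≤ Real.log c1 := Real.log_nonneg hc11
  have hL1 : 1 ≤ L := by linarith
  obtain ⟨X, hX⟩ : ∃ X : ℕ, X = f k * (M ^ J * y) := ⟨_, rfl⟩
  have hX1 : 1 ≤ X := by
    rw [hX]
    exact Nat.mul_pos hfk (Nat.mul_pos (pow_pos hM1 J) hy1)
  have hXr : (X : ℝ) = f k * (c1 * y) := by rw [hX, hc1]; push_cast; ring
  have h1 := Vk hf hM1 hP W y z J k X (hW X hX1) hzP hy1 (lt_of_le_of_lt hyN hz) hk (by rw [hX])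
  rw [← hB, ← hc1] at h1
  -- the size of `X ^ θ`
  have hfkH : (f k : ℝ) ≤ (y : ℝ) ^ (1 / (H : ℝ)) := by
    have hH0 : (H : ℝ) ≠ 0 := by
      have : (1 : ℝ) ≤ H := by exact_mod_cast hH1
      linarith
    have e1 : (f k : ℝ) = ((f k : ℝ) ^ H) ^ (1 / (H : ℝ)) := by
      rw [← Real.rpow_natCast, ← Real.rpow_mul (by linarith), mul_one_div_cancel hH0, Real.rpow_one]
    rw [e1]
    apply Real.rpow_le_rpow (by positivity) _ (by positivity)
    exact_mod_cast hq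
  have hXθ : (X : ℝ) ^ θ ≤ c1 * (y : ℝ) ^ ((1 + 1 / (H : ℝ)) * θ) := by
    have e1 : (X : ℝ) ≤ c1 * (y : ℝ) ^ (1 + 1 / (H : ℝ)) := by
      rw [hXr, Real.rpow_add hy0, Real.rpow_one]
      have : (f k : ℝ) * (c1 * y) ≤ (y : ℝ) ^ (1 / (H : ℝ)) * (c1 * y) :=
        mul_le_mul_of_nonneg_right hfkH (by positivity)
      linarith
    calc (X : ℝ) ^ θ ≤ (c1 * (y : ℝ) ^ (1 + 1 / (H : ℝ))) ^ θ := Real.rpow_le_rpow (Nat.cast_nonneg _) e1 hθ0
      _ = c1 ^ θ * ((y : ℝ) ^ (1 + 1 / (H : ℝ))) ^ θ := Real.mul_rpow (by linarith) (by positivity)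
      _ = c1 ^ θ * (y : ℝ) ^ ((1 + 1 / (H : ℝ)) * θ) := by rw [← Real.rpow_mul hy0.le]
      _ ≤ c1 * (y : ℝ) ^ ((1 + 1 / (H : ℝ)) * θ) := by
          apply mul_le_mul_of_nonneg_right _ (by positivity)
          have hθ1 : θ ≤ 1 := by
            have h2 : (1 : ℝ) ≤ 1 + 1 / (H : ℝ) := by
              have : (0 : ℝ) ≤ 1 / (H : ℝ) := by positivity
              linarith
            nlinarith
          calc c1 ^ θ ≤ c1 ^ (1 : ℝ) := Real.rpow_le_rpow_of_exponent_le hc11 hθ1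
            _ = c1 := Real.rpow_one c1
  have hlog2 : 1 + Real.log (c1 * y) ≤ 2 * L := by
    rw [Real.log_mul (by linarith) (by linarith)]
    have : Real.log y ≤ L := by
      rw [hL]
      exact Real.log_le_log hy0 (by exact_mod_cast hyN)
    linarith
  have hlog0 : 0 ≤ 1 + Real.log (c1 * y) := by
    have : 0 ≤ Real.log (c1 * y) := Real.log_nonneg (one_le_mul_of_one_le_of_one_le hc11 hyr)
    linarith
  have h2 : ((UW f W y z k).card : ℝ) ^ 2 ≤
      (C * (c1 * (y : ℝ) ^ ((1 + 1 / (H : ℝ)) * θ))) * (4 ^ J * (c1 * y * (2 * L) ^ B)) := by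
    refine h1.trans ?_
    apply mul_le_mul _ _ (by positivity) (by positivity)
    · calc C₀ * (X : ℝ) ^ θ ≤ C * (X : ℝ) ^ θ := mul_le_mul_of_nonneg_right hCC (by positivity)
        _ ≤ _ := mul_le_mul_of_nonneg_left hXθ (by linarith)
    · apply mul_le_mul_of_nonneg_left _ (by positivity)
      apply mul_le_mul_of_nonneg_left _ (by positivity)
      exact pow_le_pow_left₀ hlog0 hlog2 B
  have h3 : (C * (c1 * (y : ℝ) ^ ((1 + 1 / (H : ℝ)) * θ))) * (4 ^ J * (c1 * y * (2 * L) ^ B)) ≤ (y / L ^ T) ^ 2 := by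
    have e1 := hn1 N b1
    rw [← hL] at e1
    have e2 : (N : ℝ) ^ δ ≤ (y : ℝ) ^ (2 * δ) := by
      rw [Real.rpow_mul hy0.le, show (y : ℝ) ^ (2 : ℝ) = (y : ℝ) ^ 2 by norm_cast]
      apply Real.rpow_le_rpow (by positivity) _ hδ0.le
      exact_mod_cast hy
    have e3 : (y : ℝ) ^ ((1 + 1 / (H : ℝ)) * θ) * (y : ℝ) ^ (2 * δ) = y := by
      rw [← Real.rpow_add hy0, hδ]
      rw [show (1 + 1 / (H : ℝ)) * θ + 2 * ((1 - (1 + 1 / (H : ℝ)) * θ) / 2) = 1 by ring, Real.rpow_one]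
    have e4 : (C * (c1 * (y : ℝ) ^ ((1 + 1 / (H : ℝ)) * θ))) * (4 ^ J * (c1 * y * (2 * L) ^ B)) =
        (C * c1 * 4 ^ J * c1 * 2 ^ B * L ^ (B + 2 * T)) * ((y : ℝ) ^ ((1 + 1 / (H : ℝ)) * θ) * y) / L ^ (2 * T) := by
      rw [mul_pow 2 L B, pow_add L B (2 * T)]
      field_simp
    rw [e4, div_pow, ← pow_mul, mul_comm T 2]
    apply div_le_div_of_nonneg_right _ (by positivity)
    calc (C * c1 * 4 ^ J * c1 * 2 ^ B * L ^ (B + 2 * T)) * ((y : ℝ) ^ ((1 + 1 / (H : ℝ)) * θ) * y)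
        ≤ (y : ℝ) ^ (2 * δ) * ((y : ℝ) ^ ((1 + 1 / (H : ℝ)) * θ) * y) :=
          mul_le_mul_of_nonneg_right (e1.trans e2) (by positivity)
      _ = ((y : ℝ) ^ ((1 + 1 / (H : ℝ)) * θ) * (y : ℝ) ^ (2 * δ)) * y := by ring
      _ = (y : ℝ) ^ 2 := by rw [e3]; ring
  rw [← hL]
  exact (pow_le_pow_iff_left₀ (Nat.cast_nonneg _) (by positivity) (by norm_num)).1 (h2.trans h3)

/-- nice chains starting with `q * r` whose last value is in `W`; the list contains the thresholds of the steps -/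
def BW (f : ℕ → ℕ) (W : Set ℕ) (K : ℕ) : List ℕ → ℕ → ℕ → ℕ → Prop
  | [], z, q, r => Squarefree r ∧ Rough z r ∧ f q * f r ∈ W
  | z' :: zs, z, q, r => Squarefree r ∧ Rough z r ∧ sp z' (Nat.totient r) ≤ K ∧
      BW f W K zs z' (Nat.totient q * sp z' (Nat.totient r)) (rp z' (Nat.totient r))

theorem countW {f : ℕ → ℕ} (hf : LM f) {θ : ℝ} (hθ0 : 0 ≤ θ) (C₀ : ℝ) {H : ℕ} (hH1 : 1 ≤ H)
    (hH : (1 + 1 / (H : ℝ)) * θ < 1)
    {C D : ℕ} (hCD : ∀ m : ℕ, 1 ≤ m → (f m) ^ H ≤ C * m ^ D) : ∀ (Js : List ℕ) (J T : ℕ), ∃ N₀ : ℕ,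
    ∀ N : ℕ, N₀ ≤ N → ∀ W : Set ℕ, Few C₀ θ W → ∀ K : ℕ, 1 ≤ K → K ≤ N → ∀ (zs : List ℕ) (z : ℕ),
      List.Forall₂ (fun J z => N < (z + 1) ^ (J + 1)) Js zs → N < (z + 1) ^ (J + 1) →
      ∀ q y : ℕ, 1 ≤ q → y ≤ N → C * (q * K ^ zs.length) ^ D * (2 * K) ^ zs.length ≤ y →
      N * (2 * K) ^ (2 * zs.length) ≤ y ^ 2 →
      (((Icc 1 y).filter (fun r => BW f W K zs z q r)).card : ℝ) ≤ y / Real.log N ^ T := by
  intro Js
  induction Js with
  | nil =>
    intro J T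
    obtain ⟨N₀, h⟩ := UkW hf hθ0 C₀ hH1 hH J T
    refine ⟨N₀, fun N hN W hW K hK hKN zs z hzs hz q y hq hy h1 h2 => ?_⟩
    cases hzs
    simp only [List.length_nil, pow_zero, mul_one, mul_zero] at h1 h2
    have e : (Icc 1 y).filter (fun r => BW f W K [] z q r) = UW f W y z q := by
      ext r
      rw [UW, mem_filter, mem_filter]
      exact Iff.rfl
    rw [e]
    exact h N hN W hW z q y hz hq hy ((hCD q hq).trans h1) h2
  | cons J' Js ih =>
    intro J T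
    obtain ⟨B1, hB1⟩ : ∃ B, B = 2 ^ (2 * J) := ⟨_, rfl⟩
    obtain ⟨B2, hB2⟩ : ∃ B, B = 2 ^ J := ⟨_, rfl⟩
    obtain ⟨T1, hT1⟩ : ∃ t, t = T + B2 + 1 := ⟨_, rfl⟩
    obtain ⟨N₁, h⟩ := ih J' (B1 + 2 * T1)
    obtain ⟨n2, hn2⟩ := Pool.Agent.TH935.LD.ev_L' (2 ^ (J + B1 + B2) + 1)
    refine ⟨max N₁ (max n2 3), fun N hN W hW K hK hKN zs0 z hzs hz q y hq hy h1 h2 => ?_⟩
    have b1 : N₁ ≤ N := le_trans (le_max_left _ _) hN
    have b2 : n2 ≤ N := le_trans (le_trans (le_max_left _ _) (le_max_right _ _)) hN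
    have b3 : 3 ≤ N := le_trans (le_trans (le_max_right _ _) (le_max_right _ _)) hN
    obtain ⟨L, hL⟩ : ∃ L, L = Real.log N := ⟨_, rfl⟩
    have hLbig : (2 : ℝ) ^ (J + B1 + B2) + 1 ≤ L := by rw [hL]; exact_mod_cast hn2 N b2
    have hL1 : 1 ≤ L := by
      have : (0 : ℝ) ≤ 2 ^ (J + B1 + B2) := by positivity
      linarith
    obtain ⟨z', zs, hz', hzs', rfl⟩ : ∃ z' zs, N < (z' + 1) ^ (J' + 1) ∧
        List.Forall₂ (fun J z => N < (z + 1) ^ (J + 1)) Js zs ∧ zs0 = z' :: zs := by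
      cases hzs with
      | cons g1 g2 => exact ⟨_, _, g1, g2, rfl⟩
    rw [List.length_cons] at h1 h2
    obtain ⟨i, hi⟩ : ∃ i, i = zs.length := ⟨_, rfl⟩
    rw [← hi] at h1 h2
    have hKy : 2 * K ≤ y := by
      have e1 : (2 * K) ^ 2 ≤ y ^ 2 := by
        calc (2 * K) ^ 2 ≤ N * (2 * K) ^ (2 * (i + 1)) := by
              have e2 : (2 * K) ^ 2 ≤ (2 * K) ^ (2 * (i + 1)) :=
                Nat.pow_le_pow_right (by omega) (by omega)
              nlinarith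
          _ ≤ y ^ 2 := h2
      exact (Nat.pow_le_pow_iff_left (by norm_num)).1 e1
    set U := (Icc 1 y).filter (fun r => BW f W K (z' :: zs) z q r) with hU
    have hs_bound : ∀ s ∈ Icc 1 K, ((U.filter (fun r => sp z' (Nat.totient r) = s)).card : ℝ) ≤
        2 ^ (J + B1) * y / L ^ T1 * ((s.divisors.card : ℝ) ^ J / s) := by
      intro s hs
      rw [mem_Icc] at hs
      have hs0 : (0 : ℝ) < s := by exact_mod_cast hs.1
      have hy' : y ≤ 2 * K * (y / s) := by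
        have e1 : y < s * (y / s + 1) := Nat.lt_mul_div_succ y (by omega)
        have e2 : 1 ≤ y / s := by
          rw [Nat.le_div_iff_mul_le (by omega)]
          omega
        nlinarith
      have hIH := h N b1 W hW K hK hKN zs z' hzs' hz' (Nat.totient q * s) (y / s)
        (Nat.mul_pos (Nat.totient_pos.2 hq) hs.1) ((Nat.div_le_self _ _).trans hy) (by
          rw [← hi, Nat.le_div_iff_mul_le (by omega)]
          calc C * (Nat.totient q * s * K ^ i) ^ D * (2 * K) ^ i * s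
              ≤ C * (q * K ^ (i + 1)) ^ D * (2 * K) ^ i * (2 * K) := by
                apply Nat.mul_le_mul _ (by omega)
                apply Nat.mul_le_mul_right
                apply Nat.mul_le_mul_left
                apply Nat.pow_le_pow_left
                calc Nat.totient q * s * K ^ i ≤ q * K * K ^ i :=
                      Nat.mul_le_mul_right _ (Nat.mul_le_mul (Nat.totient_le q) hs.2)
                  _ = q * K ^ (i + 1) := by ring
            _ = C * (q * K ^ (i + 1)) ^ D * (2 * K) ^ (i + 1) := by ring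
            _ ≤ y := h1) (by
          rw [← hi]
          have e1 : (N * (2 * K) ^ (2 * i)) * (2 * K) ^ 2 ≤ (y / s) ^ 2 * (2 * K) ^ 2 := by
            calc (N * (2 * K) ^ (2 * i)) * (2 * K) ^ 2 = N * (2 * K) ^ (2 * (i + 1)) := by ring
              _ ≤ y ^ 2 := h2
              _ ≤ (2 * K * (y / s)) ^ 2 := Nat.pow_le_pow_left hy' 2
              _ = (y / s) ^ 2 * (2 * K) ^ 2 := by ring
          exact Nat.le_of_mul_le_mul_right e1 (by positivity))
      rw [← hL] at hIH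
      have hlogy : 1 + Real.log ((y / s : ℕ) : ℝ) ≤ 2 * L := by
        have e1 : Real.log ((y / s : ℕ) : ℝ) ≤ L := by
          rw [hL]
          rcases Nat.eq_zero_or_pos (y / s) with h0 | h0
          · rw [h0, Nat.cast_zero, Real.log_zero]
            exact Real.log_natCast_nonneg _
          · exact Real.log_le_log (by exact_mod_cast h0)
              (by exact_mod_cast (Nat.div_le_self _ _).trans hy)
        linarith
      have h3 := one_s (z' := z') hz hy hs.1 (fun v => BW f W K zs z' (Nat.totient q * s) v)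
        (U.filter (fun r => sp z' (Nat.totient r) = s)) (by
          intro r hr
          rw [mem_filter, hU, mem_filter, mem_Icc] at hr
          obtain ⟨⟨⟨g1, g2⟩, g3⟩, g4⟩ := hr
          obtain ⟨k1, k2, k3, k4⟩ := g3
          refine ⟨g1, g2, k1, k2, g4, ?_⟩
          rw [g4] at k4
          exact k4) (L ^ (B1 + 2 * T1)) hIH (by positivity) L hlogy
      rw [← hB1] at h3
      have h4 : (2 ^ J * (s.divisors.card : ℝ) ^ J) ^ 2 *
          (((y : ℝ) / s) ^ 2 * (2 * L) ^ B1 / L ^ (B1 + 2 * T1)) ≤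
          (2 ^ (J + B1) * y / L ^ T1 * ((s.divisors.card : ℝ) ^ J / s)) ^ 2 := by
        have e1 : (2 ^ J * (s.divisors.card : ℝ) ^ J) ^ 2 *
          (((y : ℝ) / s) ^ 2 * (2 * L) ^ B1 / L ^ (B1 + 2 * T1)) =
          2 ^ B1 * (2 ^ J * y / L ^ T1 * ((s.divisors.card : ℝ) ^ J / s)) ^ 2 := by
          rw [mul_pow 2 L, pow_add L]
          field_simp
          ring
        have e2 : (2 ^ (J + B1) * (y : ℝ) / L ^ T1 * ((s.divisors.card : ℝ) ^ J / s)) ^ 2 =
          (2 ^ B1) ^ 2 * (2 ^ J * y / L ^ T1 * ((s.divisors.card : ℝ) ^ J / s)) ^ 2 := by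
          rw [pow_add (2 : ℝ) J B1]
          ring
        rw [e1, e2]
        apply mul_le_mul_of_nonneg_right _ (by positivity)
        have : (1 : ℝ) ≤ 2 ^ B1 := one_le_pow₀ (by norm_num)
        nlinarith
      exact (pow_le_pow_iff_left₀ (Nat.cast_nonneg _) (by positivity) (by norm_num)).1 (h3.trans h4)
    have hcard : U.card = ∑ s ∈ Icc 1 K, (U.filter (fun r => sp z' (Nat.totient r) = s)).card := by
      apply card_eq_sum_card_fiberwise
      intro r hr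
      rw [mem_coe, hU, mem_filter] at hr
      rw [mem_coe, mem_Icc]
      exact ⟨sp_pos _ _, hr.2.2.2.1⟩
    have h5 := Pool.Agent.TH935.LD.tau_pow_div J K
    rw [← hB2] at h5
    have hlogK : 1 + Real.log K ≤ 2 * L := by
      have e1 : Real.log K ≤ L := by
        rw [hL]
        exact Real.log_le_log (by exact_mod_cast hK) (by exact_mod_cast hKN)
      linarith
    have hlogK0 : 0 ≤ 1 + Real.log K := by
      have : 0 ≤ Real.log (K : ℝ) := Real.log_natCast_nonneg _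
      linarith
    have hy0 : (0 : ℝ) ≤ y := Nat.cast_nonneg _
    calc (U.card : ℝ) = ∑ s ∈ Icc 1 K, ((U.filter (fun r => sp z' (Nat.totient r) = s)).card : ℝ) := by
          rw [hcard]; push_cast; rfl
      _ ≤ ∑ s ∈ Icc 1 K, 2 ^ (J + B1) * y / L ^ T1 * ((s.divisors.card : ℝ) ^ J / s) := sum_le_sum hs_bound
      _ = 2 ^ (J + B1) * y / L ^ T1 * ∑ s ∈ Icc 1 K, ((s.divisors.card : ℝ) ^ J / s) := by rw [mul_sum]
      _ ≤ 2 ^ (J + B1) * y / L ^ T1 * (2 * L) ^ B2 := by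
          apply mul_le_mul_of_nonneg_left _ (by positivity)
          exact h5.trans (pow_le_pow_left₀ hlogK0 hlogK B2)
      _ = 2 ^ (J + B1 + B2) * y / (L ^ T * L) := by
          rw [hT1, mul_pow, pow_add L, pow_add L, pow_one, pow_add (2 : ℝ) (J + B1) B2]
          field_simp
      _ ≤ y / L ^ T := by
          rw [div_le_div_iff₀ (by positivity) (by positivity)]
          have e1 : (2 : ℝ) ^ (J + B1 + B2) ≤ L := by linarith
          calc 2 ^ (J + B1 + B2) * (y : ℝ) * L ^ T ≤ L * (y : ℝ) * L ^ T := by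
                apply mul_le_mul_of_nonneg_right _ (by positivity)
                exact mul_le_mul_of_nonneg_right e1 hy0
            _ = y * (L ^ T * L) := by ring
      _ = y / Real.log N ^ T := by rw [hL]

end Pool.Agent.N760.IT
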