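import Pool.Agent.N760.IT.B
import Pool.Agent.N826.IT.G
import Pool.Agent.N760.TG.U

set_option autoImplicit false

/-!
Almost all orbits of Euler's function keep away from sets with a power saving (helper760), part C: forms for applications. They
are parallel to `keep_windows`, `keep_good`, `keep_good_nat` of helper733 (`Pool/Agent/N733/TG/K.lean`), which are the case `k = 0`
with a stronger bound for the number of the exceptional `m`.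
-/

namespace Pool.Agent.N760.IT

open Finset Filter Topology
open Pool.Agent.N733.TG (LM Expanding NearG)
open Pool.Agent.N826.IT.Orb (AlmostAll almostAll_iff almostAll_mono almostAll_finset diagonal card_mono')

/-- the value of `f` at the `k`-th iterate of Euler's function -/
def orb (f : ℕ → ℕ) (k m : ℕ) : ℕ := f (Nat.totient^[k] m)

theorem orbit_avoid {f : ℕ → ℕ} (hf : LM f) {θ : ℝ} (hθ0 : 0 ≤ θ) (hθ1 : θ < 1) {C₀ : ℝ} {W : Set ℕ} (hW : Few C₀ θ W) :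
    ∃ K : ℕ → ℕ, Tendsto K atTop atTop ∧ AlmostAll (fun m => ∀ k ≤ K m, orb f k m ∉ W) := by
  classical
  refine diagonal (P := fun j m => ∀ k ≤ j, orb f k m ∉ W) (fun i j m hij h k hk => h k (hk.trans hij)) (fun j => ?_)
  have h1 := almostAll_finset (range (j + 1)) (P := fun k m => orb f k m ∉ W) (fun k _ => by
    rw [almostAll_iff]
    intro ε hε
    obtain ⟨N₀, hN₀⟩ := densW hf hθ0 hθ1 C₀ k ε hε
    refine ⟨N₀, fun N hN => le_trans (Nat.cast_le.2 (card_mono' ?_)) (hN₀ N hN W hW)⟩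
    intro m hm
    exact not_not.1 hm)
  exact almostAll_mono h1 (fun m hm k hk => hm k (mem_range.2 (by omega)))

/-- **Main tool.** If `S` has `O_ε (X ^ (s + ε))` elements of height at most `X`, and `G` is expanding of growth `d`, then there
is `K(m)` tending to infinity such that for almost all `m`, for all `k ≤ K(m)`, no element of `S` has a height within
`f(φ_k m)^κ` of `G (f (φ_k m))`; here `d s + κ < 1`. -/
theorem orbit_windows {T : Type*} (S : Set T) (h : T → ℝ) {f : ℕ → ℕ} (hf : LM f) {G : ℕ → ℝ} {d : ℝ}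
    (hG : Expanding G d) {s κ : ℝ} (hs : 0 ≤ s) (hκ : 0 ≤ κ) (h1 : d * s + κ < 1)
    (hS : ∀ ε : ℝ, 0 < ε → ∃ C : ℝ, ∀ X : ℝ, 1 ≤ X →
      {t | t ∈ S ∧ h t ≤ X}.Finite ∧ ({t | t ∈ S ∧ h t ≤ X}.ncard : ℝ) ≤ C * X ^ (s + ε)) :
    ∃ K : ℕ → ℕ, Tendsto K atTop atTop ∧
      AlmostAll (fun m => ∀ k ≤ K m, ∀ t ∈ S, ¬ |h t - G (orb f k m)| ≤ (orb f k m : ℝ) ^ κ) := by
  have hd := hG.one_le
  obtain ⟨ε, hε⟩ : ∃ ε, ε = (1 - d * s - κ) / (2 * d) := ⟨_, rfl⟩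
  have hε0 : 0 < ε := by
    rw [hε]
    apply div_pos (by linarith) (by linarith)
  have hεd : d * ε = (1 - d * s - κ) / 2 := by
    rw [hε]
    field_simp
  obtain ⟨C, hC⟩ := Pool.Agent.N733.TG.nearG_count S h hG (s := s + ε) (κ := κ) (by linarith) hκ (by
    have : 0 ≤ d * s := by positivity
    linarith) (hS ε hε0)
  have h2 : d * (s + ε) + κ < 1 := by
    rw [mul_add, hεd]
    linarith
  obtain ⟨K, hK, hK2⟩ := orbit_avoid hf (θ := d * (s + ε) + κ) (by positivity) h2 (W := NearG S h G κ) (C₀ := C)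
    (fun X hX => le_trans (le_of_eq (by congr!)) (hC X hX))
  refine ⟨K, hK, almostAll_mono hK2 (fun m hm k hk t ht hcon => hm k hk ⟨t, ht, hcon⟩)⟩

/-- the same for a property: for almost all `m` and all `k ≤ K(m)` every `t` with `Adm t` and a height near
`G (f (φ_k m))` is good -/
theorem orbit_good {T : Type*} (Adm Good : T → Prop) (h : T → ℝ) {f : ℕ → ℕ} (hf : LM f) {G : ℕ → ℝ} {d : ℝ}
    (hG : Expanding G d) {s κ : ℝ} (hs : 0 ≤ s) (hκ : 0 ≤ κ) (h1 : d * s + κ < 1)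
    (hS : ∀ ε : ℝ, 0 < ε → ∃ C : ℝ, ∀ X : ℝ, 1 ≤ X →
      {t | (Adm t ∧ ¬ Good t) ∧ h t ≤ X}.Finite ∧ ({t | (Adm t ∧ ¬ Good t) ∧ h t ≤ X}.ncard : ℝ) ≤ C * X ^ (s + ε)) :
    ∃ K : ℕ → ℕ, Tendsto K atTop atTop ∧
      AlmostAll (fun m => ∀ k ≤ K m, ∀ t, Adm t → |h t - G (orb f k m)| ≤ (orb f k m : ℝ) ^ κ → Good t) := by
  obtain ⟨K, hK, hK2⟩ := orbit_windows {t | Adm t ∧ ¬ Good t} h hf hG hs hκ h1 hS
  refine ⟨K, hK, almostAll_mono hK2 (fun m hm k hk t ht hw => ?_)⟩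
  by_contra hcon
  exact hm k hk t ⟨ht, hcon⟩ hw

/-- the same for an exact exponent -/
theorem orbit_good' {T : Type*} (Adm Good : T → Prop) (h : T → ℝ) {f : ℕ → ℕ} (hf : LM f) {G : ℕ → ℝ} {d : ℝ}
    (hG : Expanding G d) {s κ : ℝ} (hs : 0 ≤ s) (hκ : 0 ≤ κ) (h1 : d * s + κ < 1)
    (hS : ∃ C : ℝ, ∀ X : ℝ, 1 ≤ X →
      {t | (Adm t ∧ ¬ Good t) ∧ h t ≤ X}.Finite ∧ ({t | (Adm t ∧ ¬ Good t) ∧ h t ≤ X}.ncard : ℝ) ≤ C * X ^ s) :
    ∃ K : ℕ → ℕ, Tendsto K atTop atTop ∧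
      AlmostAll (fun m => ∀ k ≤ K m, ∀ t, Adm t → |h t - G (orb f k m)| ≤ (orb f k m : ℝ) ^ κ → Good t) := by
  refine orbit_good Adm Good h hf hG hs hκ h1 (fun ε hε => ?_)
  obtain ⟨C, hC⟩ := hS
  refine ⟨|C|, fun X hX => ⟨(hC X hX).1, (hC X hX).2.trans ?_⟩⟩
  calc C * X ^ s ≤ |C| * X ^ s := mul_le_mul_of_nonneg_right (le_abs_self C) (by positivity)
    _ ≤ |C| * X ^ (s + ε) :=
        mul_le_mul_of_nonneg_left (Real.rpow_le_rpow_of_exponent_le hX (by linarith)) (abs_nonneg C)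

/-- the same for natural numbers -/
theorem orbit_good_nat (Adm Good : ℕ → Prop) {f : ℕ → ℕ} (hf : LM f) {G : ℕ → ℝ} {d : ℝ}
    (hG : Expanding G d) {s κ : ℝ} (hs : 0 ≤ s) (hκ : 0 ≤ κ) (h1 : d * s + κ < 1)
    (hP : ∀ ε : ℝ, 0 < ε → ∃ C : ℝ, ∀ X : ℕ, 1 ≤ X →
      ({t : ℕ | 1 ≤ t ∧ t ≤ X ∧ Adm t ∧ ¬ Good t}.ncard : ℝ) ≤ C * (X : ℝ) ^ (s + ε)) :
    ∃ K : ℕ → ℕ, Tendsto K atTop atTop ∧
      AlmostAll (fun m => ∀ k ≤ K m, ∀ n : ℕ, 1 ≤ n → Adm n → |(n : ℝ) - G (orb f k m)| ≤ (orb f k m : ℝ) ^ κ →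
        Good n) := by
  obtain ⟨K, hK, hK2⟩ := orbit_good (fun n : ℕ => 1 ≤ n ∧ Adm n) Good (fun n : ℕ => (n : ℝ)) hf hG hs hκ h1
    (fun ε hε => by
      obtain ⟨C, hC⟩ := hP ε hε
      refine ⟨|C|, fun X hX => ?_⟩
      have hX1 : 1 ≤ ⌊X⌋₊ := Nat.le_floor (by exact_mod_cast hX)
      have e : {t : ℕ | ((1 ≤ t ∧ Adm t) ∧ ¬ Good t) ∧ (t : ℝ) ≤ X} = {t : ℕ | 1 ≤ t ∧ t ≤ ⌊X⌋₊ ∧ Adm t ∧ ¬ Good t} := by
        ext t
        simp only [Set.mem_ofPred_eq]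
        rw [← Nat.le_floor_iff (by linarith)]
        tauto
      rw [e]
      refine ⟨(Set.finite_Iic ⌊X⌋₊).subset (fun t ht => ht.2.1), (hC _ hX1).trans ?_⟩
      calc C * ((⌊X⌋₊ : ℕ) : ℝ) ^ (s + ε) ≤ |C| * ((⌊X⌋₊ : ℕ) : ℝ) ^ (s + ε) :=
            mul_le_mul_of_nonneg_right (le_abs_self C) (by positivity)
        _ ≤ |C| * X ^ (s + ε) := mul_le_mul_of_nonneg_left
            (Real.rpow_le_rpow (Nat.cast_nonneg _) (Nat.floor_le (by linarith)) (by linarith)) (abs_nonneg C))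
  exact ⟨K, hK, almostAll_mono hK2 (fun m hm k hk n hn1 hn hw => hm k hk n ⟨hn1, hn⟩ hw)⟩

theorem lm_id : LM (fun m => m) :=
  Pool.Agent.N733.TG.lm_of_shift (c := 0) (fun _ _ _ => rfl) (fun _ hm => hm)
    ⟨1, 1, fun m _ => by rw [one_mul, pow_one]⟩ ⟨0, fun p _ _ => by rw [add_zero]⟩

end Pool.Agent.N760.IT
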