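import Pool.Agent.N760.IT.C

set_option autoImplicit false

/-!
Almost all orbits of Euler's function keep away from sets with a power saving (helper760), part D: natural numbers, exact exponent;
sets.
-/

namespace Pool.Agent.N760.IT

open Finset Filter Topology
open Pool.Agent.N733.TG (LM Expanding NearG)
open Pool.Agent.N826.IT.Orb (AlmostAll almostAll_iff almostAll_mono almostAll_finset diagonal card_mono')

/-- natural numbers, exact exponent -/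
theorem orbit_good_nat' (Good : ℕ → Prop) {f : ℕ → ℕ} (hf : LM f) {G : ℕ → ℝ} {d : ℝ}
    (hG : Expanding G d) {s κ : ℝ} (hs : 0 ≤ s) (hκ : 0 ≤ κ) (h1 : d * s + κ < 1)
    (hP : ∃ C : ℝ, ∀ X : ℕ, 1 ≤ X → ({t : ℕ | 1 ≤ t ∧ t ≤ X ∧ ¬ Good t}.ncard : ℝ) ≤ C * (X : ℝ) ^ s) :
    ∃ K : ℕ → ℕ, Tendsto K atTop atTop ∧
      AlmostAll (fun m => ∀ k ≤ K m, ∀ n : ℕ, 1 ≤ n → |(n : ℝ) - G (orb f k m)| ≤ (orb f k m : ℝ) ^ κ → Good n) := by
  obtain ⟨C, hC⟩ := hP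
  obtain ⟨K, hK, hK2⟩ := orbit_good_nat (fun _ => True) Good hf hG hs hκ h1 (fun ε hε => by
    refine ⟨|C|, fun X hX => ?_⟩
    have hX1 : (1 : ℝ) ≤ X := by exact_mod_cast hX
    have e : {t : ℕ | 1 ≤ t ∧ t ≤ X ∧ True ∧ ¬ Good t} = {t : ℕ | 1 ≤ t ∧ t ≤ X ∧ ¬ Good t} := by
      ext t
      simp only [Set.mem_ofPred_eq, true_and]
    rw [e]
    refine (hC X hX).trans ?_
    calc C * (X : ℝ) ^ s ≤ |C| * (X : ℝ) ^ s := mul_le_mul_of_nonneg_right (le_abs_self C) (by positivity)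
      _ ≤ |C| * (X : ℝ) ^ (s + ε) :=
          mul_le_mul_of_nonneg_left (Real.rpow_le_rpow_of_exponent_le hX1 (by linarith)) (abs_nonneg C))
  exact ⟨K, hK, almostAll_mono hK2 (fun m hm k hk n hn1 hw => hm k hk n hn1 trivial hw)⟩

/-- sets, exact exponent -/
theorem orbit_windows' {T : Type*} (S : Set T) (h : T → ℝ) {f : ℕ → ℕ} (hf : LM f) {G : ℕ → ℝ} {d : ℝ}
    (hG : Expanding G d) {s κ : ℝ} (hs : 0 ≤ s) (hκ : 0 ≤ κ) (h1 : d * s + κ < 1)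
    (hS : ∃ C : ℝ, ∀ X : ℝ, 1 ≤ X →
      {t | t ∈ S ∧ h t ≤ X}.Finite ∧ ({t | t ∈ S ∧ h t ≤ X}.ncard : ℝ) ≤ C * X ^ s) :
    ∃ K : ℕ → ℕ, Tendsto K atTop atTop ∧
      AlmostAll (fun m => ∀ k ≤ K m, ∀ t ∈ S, ¬ |h t - G (orb f k m)| ≤ (orb f k m : ℝ) ^ κ) := by
  refine orbit_windows S h hf hG hs hκ h1 (fun ε hε => ?_)
  obtain ⟨C, hC⟩ := hS
  refine ⟨|C|, fun X hX => ⟨(hC X hX).1, (hC X hX).2.trans ?_⟩⟩
  calc C * X ^ s ≤ |C| * X ^ s := mul_le_mul_of_nonneg_right (le_abs_self C) (by positivity)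
    _ ≤ |C| * X ^ (s + ε) :=
        mul_le_mul_of_nonneg_left (Real.rpow_le_rpow_of_exponent_le hX (by linarith)) (abs_nonneg C)

end Pool.Agent.N760.IT
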