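import Pool.Agent.N760.IT.C
import Pool.Agent.N578.TG.Unif

set_option autoImplicit false

/-!
Almost all orbits of Euler's function keep away from sets with a power saving (helper760), part E: a form uniform in the set
(the count near `G` in this uniform form is helper578's `nearG_count_unif`).
-/

namespace Pool.Agent.N760.IT

open Finset Filter Topology
open Pool.Agent.N733.TG (LM Expanding NearG)
open Pool.Agent.N826.IT.Orb (card_mono')

/-- **Uniform form.** For all sets `S` with at most `C X ^ s` elements of height at most `X` at once: for `N ≥ N₀` and all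
`m ≤ N` but `ε N`, for all `k ≤ K`, no element of `S` has a height within `f(φ_k m)^κ` of `G (f (φ_k m))`; here
`d s + κ < 1`, and `N₀` does not depend on `S`. -/
theorem orbit_unif {T : Type*} {f : ℕ → ℕ} (hf : LM f) {G : ℕ → ℝ} {d : ℝ}
    (hG : Expanding G d) {s κ : ℝ} (hs : 0 ≤ s) (hκ : 0 ≤ κ) (h1 : d * s + κ < 1) (C : ℝ) (K : ℕ) (ε : ℝ) (hε : 0 < ε) :
    ∃ N₀ : ℕ, ∀ (S : Set T) (h : T → ℝ), (∀ X : ℝ, 1 ≤ X →
      {t | t ∈ S ∧ h t ≤ X}.Finite ∧ ({t | t ∈ S ∧ h t ≤ X}.ncard : ℝ) ≤ C * X ^ s) →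
      ∀ N : ℕ, N₀ ≤ N →
      ({m : ℕ | 1 ≤ m ∧ m ≤ N ∧ ∃ k ≤ K, ∃ t ∈ S, |h t - G (orb f k m)| ≤ (orb f k m : ℝ) ^ κ}.ncard : ℝ) ≤ ε * N := by
  classical
  have hd := hG.one_le
  have h0 : 0 ≤ d * s := mul_nonneg (by linarith) hs
  obtain ⟨C', hC'⟩ := Pool.Agent.N578.TG.nearG_count_unif (T := T) hG hs hκ (by linarith) C
  have hε' : 0 < ε / (K + 1) := by positivity
  choose N₀ hN₀ using fun k : ℕ => densW hf (θ := d * s + κ) (by positivity) h1 C' k (ε / (K + 1)) hε'
  refine ⟨(range (K + 1)).sup N₀, fun S h hS N hN => ?_⟩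
  have hW : Few C' (d * s + κ) (NearG S h G κ) := fun X hX => le_trans (le_of_eq (by congr!)) (hC' S h hS X hX)
  have hsub : {m : ℕ | 1 ≤ m ∧ m ≤ N ∧ ∃ k ≤ K, ∃ t ∈ S, |h t - G (orb f k m)| ≤ (orb f k m : ℝ) ^ κ} ⊆
      (((range (K + 1)).biUnion (fun k => (Icc 1 N).filter (fun m => f (Nat.totient^[k] m) ∈ NearG S h G κ)) :
        Finset ℕ) : Set ℕ) := by
    rintro m ⟨e1, e2, k, hk, t, ht, e3⟩
    rw [Finset.mem_coe, mem_biUnion]
    exact ⟨k, mem_range.2 (by omega), mem_filter.2 ⟨mem_Icc.2 ⟨e1, e2⟩, t, ht, e3⟩⟩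
  have h2 := Set.ncard_le_ncard hsub (Finset.finite_toSet _)
  rw [Set.ncard_coe_finset] at h2
  have h3 : ((((range (K + 1)).biUnion
      (fun k => (Icc 1 N).filter (fun m => f (Nat.totient^[k] m) ∈ NearG S h G κ))).card : ℕ) : ℝ) ≤ ε * N := by
    have h4 : ((((range (K + 1)).biUnion
        (fun k => (Icc 1 N).filter (fun m => f (Nat.totient^[k] m) ∈ NearG S h G κ))).card : ℕ) : ℝ) ≤
        ∑ k ∈ range (K + 1), (((Icc 1 N).filter (fun m => f (Nat.totient^[k] m) ∈ NearG S h G κ)).card : ℝ) := by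
      exact_mod_cast card_biUnion_le
    refine h4.trans ?_
    calc ∑ k ∈ range (K + 1), (((Icc 1 N).filter (fun m => f (Nat.totient^[k] m) ∈ NearG S h G κ)).card : ℝ)
        ≤ ∑ k ∈ range (K + 1), (ε / (K + 1)) * N := by
          refine sum_le_sum (fun k hk => ?_)
          refine le_trans (Nat.cast_le.2 (card_mono' (fun m hm => hm))) (hN₀ k N (le_trans (le_sup hk) hN) _ hW)
      _ = ε * N := by
          rw [sum_const, card_range, nsmul_eq_mul]
          push_cast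
          field_simp
  exact le_trans (by exact_mod_cast h2) h3

end Pool.Agent.N760.IT
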